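import Pool.Agent.Helper64.SPX.Spec3

/-!
# SPX, part K1: the Voronoi cell of a lattice with an obtuse superbase
-/

set_option autoImplicit false

open MeasureTheory Filter Topology Set
open scoped InnerProductSpace ENNReal

namespace Pool.Agent.Helper39.SPX.K1

open Pool.Agent.Helper64.SPX

variable {ι ω : Type} [Fintype ι] [Fintype ω]

theorem norm_sq (b : ω → E ι) (hb : ∑ o, b o = 0) (g : ω → ℝ) :
    ‖∑ o, g o • b o‖ ^ 2 = 1 / 2 * ∑ j, ∑ k, (-⟪b j, b k⟫_ℝ) * (g j - g k) ^ 2 := by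
  have h1 : ‖∑ o, g o • b o‖ ^ 2 = ∑ j, ∑ k, g j * g k * ⟪b j, b k⟫_ℝ := by
    rw [← real_inner_self_eq_norm_sq, sum_inner]
    refine Finset.sum_congr rfl fun j _ => ?_
    rw [inner_sum]
    refine Finset.sum_congr rfl fun k _ => ?_
    rw [real_inner_smul_left, real_inner_smul_right]
    ring
  have h2 : ∀ j, ∑ k, ⟪b j, b k⟫_ℝ = 0 := by
    intro j
    rw [← inner_sum, hb, inner_zero_right]
  have h3 : ∀ k, ∑ j, ⟪b j, b k⟫_ℝ = 0 := by
    intro k
    rw [← sum_inner, hb, inner_zero_left]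
  have h4 : ∑ j, ∑ k, (-⟪b j, b k⟫_ℝ) * (g j - g k) ^ 2 =
      -(∑ j, ∑ k, g j ^ 2 * ⟪b j, b k⟫_ℝ) + 2 * (∑ j, ∑ k, g j * g k * ⟪b j, b k⟫_ℝ) -
        ∑ j, ∑ k, g k ^ 2 * ⟪b j, b k⟫_ℝ := by
    rw [Finset.mul_sum, ← Finset.sum_neg_distrib, ← Finset.sum_add_distrib,
      ← Finset.sum_sub_distrib]
    refine Finset.sum_congr rfl fun j _ => ?_
    rw [Finset.mul_sum, ← Finset.sum_neg_distrib, ← Finset.sum_add_distrib,
      ← Finset.sum_sub_distrib]
    refine Finset.sum_congr rfl fun k _ => ?_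
    ring
  have h5 : ∑ j, ∑ k, g j ^ 2 * ⟪b j, b k⟫_ℝ = 0 := by
    refine Finset.sum_eq_zero fun j _ => ?_
    rw [← Finset.mul_sum, h2, mul_zero]
  have h6 : ∑ j, ∑ k, g k ^ 2 * ⟪b j, b k⟫_ℝ = 0 := by
    rw [Finset.sum_comm]
    refine Finset.sum_eq_zero fun k _ => ?_
    rw [← Finset.mul_sum, h3, mul_zero]
  rw [h4, h5, h6, h1]
  ring

open Classical in
theorem bS_eq (b : ω → E ι) (K : Finset ω) :
    bS b K = ∑ o, (if o ∈ K then (1 : ℝ) else 0) • b o := by
  unfold bS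
  simp only [ite_smul, one_smul, zero_smul]
  rw [Finset.sum_ite_mem, Finset.univ_inter]

theorem level (A : ℤ) (M : ℕ) (n : ℤ) (h : A ≤ n ∧ n ≤ A + M) :
    ∑ m ∈ Finset.Ioc A (A + M), (if m ≤ n then (1 : ℝ) else 0) = n - A := by
  rw [Finset.sum_boole]
  have : (Finset.Ioc A (A + M)).filter (fun m => m ≤ n) = Finset.Ioc A n := by
    ext m
    simp only [Finset.mem_filter, Finset.mem_Ioc]
    omega
  rw [this, Int.card_Ioc]
  have h2 : (((n - A).toNat : ℤ) : ℝ) = ((n - A : ℤ) : ℝ) := by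
    rw [Int.toNat_of_nonneg (by omega)]
  push_cast at h2 ⊢
  exact h2

theorem level_abs (A : ℤ) (M : ℕ) (n n' : ℤ) (h : A ≤ n ∧ n ≤ A + M)
    (h' : A ≤ n' ∧ n' ≤ A + M) :
    ∑ m ∈ Finset.Ioc A (A + M), ((if m ≤ n then (1 : ℝ) else 0) - (if m ≤ n' then 1 else 0)) ^ 2 =
      |(n : ℝ) - n'| := by
  wlog hle : n' ≤ n generalizing n n'
  · rw [abs_sub_comm, ← this n' n h' h (by omega)]
    refine Finset.sum_congr rfl fun m _ => ?_
    ring
  · have h1 : ∀ m : ℤ, ((if m ≤ n then (1 : ℝ) else 0) - (if m ≤ n' then 1 else 0)) ^ 2 =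
        (if m ≤ n then (1 : ℝ) else 0) - (if m ≤ n' then 1 else 0) := by
      intro m
      by_cases h2 : m ≤ n'
      · rw [if_pos h2, if_pos (h2.trans hle)]
        norm_num
      · rw [if_neg h2]
        by_cases h3 : m ≤ n
        · rw [if_pos h3]
          norm_num
        · rw [if_neg h3]
          norm_num
    simp only [h1]
    rw [Finset.sum_sub_distrib, level A M n h, level A M n' h', abs_of_nonneg]
    · ring
    · have : (n' : ℝ) ≤ n := by exact_mod_cast hle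
      linarith

open Classical in
/-- the level set -/
noncomputable def lev (c : ω → ℤ) (m : ℤ) : Finset ω := Finset.univ.filter fun o => m ≤ c o

theorem mem_lev (c : ω → ℤ) (m : ℤ) (o : ω) : o ∈ lev c m ↔ m ≤ c o := by
  simp [lev]

/-- the main identity -/
theorem ident (b : ω → E ι) (hb : ∑ o, b o = 0) (x : E ι) (c : ω → ℤ) (A : ℤ) (M : ℕ)
    (h : ∀ o, A ≤ c o ∧ c o ≤ A + M) :
    ‖∑ o, (c o : ℝ) • b o‖ ^ 2 / 2 - ⟪∑ o, (c o : ℝ) • b o, x⟫_ℝ =
      ∑ m ∈ Finset.Ioc A (A + M), (‖bS b (lev c m)‖ ^ 2 / 2 - ⟪bS b (lev c m), x⟫_ℝ) +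
      1 / 4 * ∑ j, ∑ k, (-⟪b j, b k⟫_ℝ) *
        (((c j : ℝ) - c k) ^ 2 - |(c j : ℝ) - c k|) := by
  classical
  have hlev : ∀ m : ℤ, bS b (lev c m) = ∑ o, (if m ≤ c o then (1 : ℝ) else 0) • b o := by
    intro m
    rw [bS_eq]
    refine Finset.sum_congr rfl fun o _ => ?_
    simp only [mem_lev]
  have e1 : ∑ m ∈ Finset.Ioc A (A + M), ⟪bS b (lev c m), x⟫_ℝ =
      ⟪∑ o, (c o : ℝ) • b o, x⟫_ℝ := by
    have e2 : ∀ m : ℤ, ⟪bS b (lev c m), x⟫_ℝ =
        ∑ o, (if m ≤ c o then (1 : ℝ) else 0) * ⟪b o, x⟫_ℝ := by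
      intro m
      rw [hlev, sum_inner]
      refine Finset.sum_congr rfl fun o _ => ?_
      rw [real_inner_smul_left]
    simp only [e2]
    rw [Finset.sum_comm, sum_inner]
    have e3 : ∀ o, ∑ m ∈ Finset.Ioc A (A + M), (if m ≤ c o then (1 : ℝ) else 0) * ⟪b o, x⟫_ℝ =
        (c o : ℝ) * ⟪b o, x⟫_ℝ - A * ⟪b o, x⟫_ℝ := by
      intro o
      rw [← Finset.sum_mul, level A M (c o) (h o)]
      ring
    simp only [e3, real_inner_smul_left]
    rw [Finset.sum_sub_distrib, ← Finset.mul_sum]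
    have e4 : ∑ o, ⟪b o, x⟫_ℝ = 0 := by
      rw [← sum_inner, hb, inner_zero_left]
    rw [e4]
    ring
  have e5 : ∑ m ∈ Finset.Ioc A (A + M), ‖bS b (lev c m)‖ ^ 2 / 2 =
      1 / 4 * ∑ j, ∑ k, (-⟪b j, b k⟫_ℝ) * |(c j : ℝ) - c k| := by
    have e6 : ∀ m : ℤ, ‖bS b (lev c m)‖ ^ 2 / 2 = 1 / 4 * ∑ j, ∑ k, (-⟪b j, b k⟫_ℝ) *
        ((if m ≤ c j then (1 : ℝ) else 0) - (if m ≤ c k then 1 else 0)) ^ 2 := by
      intro m
      rw [hlev, norm_sq b hb]
      ring
    simp only [e6]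
    rw [← Finset.mul_sum, Finset.sum_comm]
    congr 1
    refine Finset.sum_congr rfl fun j _ => ?_
    rw [Finset.sum_comm]
    refine Finset.sum_congr rfl fun k _ => ?_
    rw [← Finset.mul_sum, level_abs A M (c j) (c k) (h j) (h k)]
  rw [Finset.sum_sub_distrib, e1, e5, norm_sq b hb]
  have e7 : ∑ j, ∑ k, (-⟪b j, b k⟫_ℝ) * (((c j : ℝ) - c k) ^ 2 - |(c j : ℝ) - c k|) =
      ∑ j, ∑ k, (-⟪b j, b k⟫_ℝ) * ((c j : ℝ) - c k) ^ 2 -
      ∑ j, ∑ k, (-⟪b j, b k⟫_ℝ) * |(c j : ℝ) - c k| := by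
    rw [← Finset.sum_sub_distrib]
    refine Finset.sum_congr rfl fun j _ => ?_
    rw [← Finset.sum_sub_distrib]
    refine Finset.sum_congr rfl fun k _ => ?_
    ring
  rw [e7]
  ring

theorem range_exists [Nonempty ω] (c : ω → ℤ) : ∃ (A : ℤ) (M : ℕ),
    ∀ o, A ≤ c o ∧ c o ≤ A + M := by
  obtain ⟨o1, h1⟩ := Finite.exists_min c
  obtain ⟨o2, h2⟩ := Finite.exists_max c
  refine ⟨c o1, (c o2 - c o1).toNat, fun o => ⟨h1 o, ?_⟩⟩
  have := h2 o
  have := h1 o
  omega

theorem int_sq (n : ℤ) : |(n : ℝ)| ≤ (n : ℝ) ^ 2 := by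
  have h : |n| ≤ n ^ 2 := by
    rw [← sq_abs]
    have := abs_nonneg n
    nlinarith [Int.one_le_abs (z := n), sq_nonneg (|n| - 1)] 
  exact_mod_cast h

theorem sq_eq (n : ℤ) : (n : ℝ) ^ 2 - |(n : ℝ)| = 0 ↔ |n| ≤ 1 := by
  have h1 : (n : ℝ) ^ 2 - |(n : ℝ)| = ((|n| * (|n| - 1) : ℤ) : ℝ) := by
    push_cast
    rw [← sq_abs (n : ℝ)]
    ring
  rw [h1]
  constructor
  · intro h
    have h2 : |n| * (|n| - 1) = 0 := by exact_mod_cast h
    rcases mul_eq_zero.1 h2 with h3 | h3 <;> omega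
  · intro h
    have h3 : |n| = 0 ∨ |n| = 1 := by
      have := abs_nonneg n
      omega
    rcases h3 with h3 | h3 <;> rw [h3] <;> norm_num

theorem dist_iff (x l : E ι) : ‖x‖ ≤ ‖x - l‖ ↔ 0 ≤ ‖l‖ ^ 2 / 2 - ⟪l, x⟫_ℝ := by
  have h : ‖x - l‖ ^ 2 = ‖x‖ ^ 2 - 2 * ⟪l, x⟫_ℝ + ‖l‖ ^ 2 := by
    rw [norm_sub_sq_real, real_inner_comm]
  constructor
  · intro h1
    have h2 : ‖x‖ ^ 2 ≤ ‖x - l‖ ^ 2 := pow_le_pow_left₀ (norm_nonneg _) h1 2
    linarith
  · intro h1
    apply le_of_sq_le_sq _ (norm_nonneg _)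
    linarith

theorem dist_eq_iff (x l : E ι) : ‖x - l‖ = ‖x‖ ↔ ‖l‖ ^ 2 / 2 - ⟪l, x⟫_ℝ = 0 := by
  have h : ‖x - l‖ ^ 2 = ‖x‖ ^ 2 - 2 * ⟪l, x⟫_ℝ + ‖l‖ ^ 2 := by
    rw [norm_sub_sq_real, real_inner_comm]
  constructor
  · intro h1
    rw [h1] at h
    linarith
  · intro h1
    have h2 : ‖x - l‖ ^ 2 = ‖x‖ ^ 2 := by linarith
    exact (sq_eq_sq₀ (norm_nonneg _) (norm_nonneg _)).1 h2

theorem main (hK0 : S_K0) : S_K1 := by
  classical
  intro ι ω _ _ b hb
  have hne : Nonempty ω := by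
    rw [← Fintype.card_pos_iff, hb.card]
    omega
  have hK := (hK0 ι ω b hb).1
  -- the body in terms of finsets
  have hbody : ∀ x, x ∈ (fk b).body ↔ ∀ K : Finset ω, K.Nonempty → K ≠ Finset.univ →
      ⟪bS b K, x⟫_ℝ ≤ ‖bS b K‖ ^ 2 / 2 := by
    intro x
    constructor
    · intro h K hK1 hK2
      have := h (Fintype.equivFin (Prp ω) ⟨K, hK1, hK2⟩)
      simpa [fk] using this
    · intro h k
      exact h _ ((Fintype.equivFin (Prp ω)).symm k).2.1 ((Fintype.equivFin (Prp ω)).symm k).2.2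
  -- the terms of the identity
  have hempty : bS b ∅ = 0 := by simp [bS]
  have huniv : bS b Finset.univ = 0 := by
    unfold bS
    exact hb.sum
  have hterm : ∀ x ∈ (fk b).body, ∀ K : Finset ω, 0 ≤ ‖bS b K‖ ^ 2 / 2 - ⟪bS b K, x⟫_ℝ := by
    intro x hx K
    rcases K.eq_empty_or_nonempty with rfl | h1
    · rw [hempty]
      simp
    · by_cases h2 : K = Finset.univ
      · rw [h2, huniv]
        simp
      · have := (hbody x).1 hx K h1 h2
        linarith
  have hpair : ∀ (c : ω → ℤ) (j k : ω), 0 ≤ (-⟪b j, b k⟫_ℝ) *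
      (((c j : ℝ) - c k) ^ 2 - |(c j : ℝ) - c k|) := by
    intro c j k
    by_cases h : j = k
    · rw [h]
      simp
    · have h1 := hb.obt j k h
      have h2 := int_sq (c j - c k)
      push_cast at h2
      exact mul_nonneg (by linarith) (by linarith)
  have hsub : ∀ x ∈ (fk b).body, x ∈ vorB b := by
    intro x hx c
    obtain ⟨A, M, h⟩ := range_exists c
    rw [dist_iff, ident b hb.sum x c A M h]
    have h1 : 0 ≤ ∑ m ∈ Finset.Ioc A (A + M),
        (‖bS b (lev c m)‖ ^ 2 / 2 - ⟪bS b (lev c m), x⟫_ℝ) :=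
      Finset.sum_nonneg fun m _ => hterm x hx _
    have h2 : 0 ≤ ∑ j, ∑ k, (-⟪b j, b k⟫_ℝ) * (((c j : ℝ) - c k) ^ 2 - |(c j : ℝ) - c k|) :=
      Finset.sum_nonneg fun j _ => Finset.sum_nonneg fun k _ => hpair c j k
    linarith
  have hbv : (fk b).body = vorB b := by
    apply Set.Subset.antisymm hsub
    intro x hx
    rw [hbody]
    intro K _ _
    have h1 := hx (fun o => if o ∈ K then 1 else 0)
    have h2 : ∑ o, (((if o ∈ K then 1 else 0 : ℤ)) : ℝ) • b o = bS b K := by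
      rw [bS_eq]
      refine Finset.sum_congr rfl fun o _ => ?_
      split_ifs <;> simp
    rw [h2, dist_iff] at h1
    linarith
  refine ⟨hbv, ⟨?_, ?_, ?_⟩, ?_⟩
  · -- bounded
    let f : E ι →ₗ[ℝ] (ω → ℝ) := LinearMap.pi fun o => (innerₗ (E ι)) (b o)
    have hf : ∀ x o, f x o = ⟪b o, x⟫_ℝ := fun x o => rfl
    have hker : LinearMap.ker f = ⊥ := by
      rw [LinearMap.ker_eq_bot']
      intro x hx
      have h1 : ∀ o, ⟪b o, x⟫_ℝ = 0 := fun o => by
        rw [← hf, hx]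
        rfl
      have h2 : x ∈ Submodule.span ℝ (Set.range b) := hb.span Submodule.mem_top
      have h3 : ∀ y ∈ Submodule.span ℝ (Set.range b), ⟪y, x⟫_ℝ = 0 := by
        intro y hy
        induction hy using Submodule.span_induction with
        | mem y hy =>
          obtain ⟨o, rfl⟩ := hy
          exact h1 o
        | zero => exact inner_zero_left _
        | add y z _ _ hy hz => rw [inner_add_left, hy, hz, add_zero]
        | smul r y _ hy => rw [real_inner_smul_left, hy, mul_zero]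
      exact inner_self_eq_zero.1 (h3 x h2)
    obtain ⟨C, hC, hanti⟩ := LinearMap.exists_antilipschitzWith f hker
    have hbd : Bornology.IsBounded (Set.Icc (fun o => -(‖b o‖ ^ 2 / 2)) (fun o => ‖b o‖ ^ 2 / 2)) :=
      Metric.isBounded_Icc _ _
    refine (hanti.isBounded_preimage hbd).subset ?_
    intro x hx
    rw [hbv] at hx
    rw [Set.mem_preimage, Set.mem_Icc]
    have hpm : ∀ o, ∀ s : ℤ, s = 1 ∨ s = -1 → (s : ℝ) * ⟪b o, x⟫_ℝ ≤ ‖b o‖ ^ 2 / 2 := by
      intro o s hs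
      have h1 := hx (fun o' => if o' = o then s else 0)
      have h2 : ∑ o', (((if o' = o then s else 0 : ℤ)) : ℝ) • b o' = (s : ℝ) • b o := by
        rw [Finset.sum_eq_single o]
        · rw [if_pos rfl]
        · intro o' _ h
          rw [if_neg h]
          simp
        · intro h
          exact absurd (Finset.mem_univ o) h
      rw [h2, dist_iff, real_inner_smul_left, norm_smul] at h1
      have h3 : ‖(s : ℝ)‖ = 1 := by
        rcases hs with rfl | rfl <;> simp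
      rw [h3, one_mul] at h1
      linarith
    constructor
    · intro o
      rw [hf]
      have := hpm o (-1) (Or.inr rfl)
      push_cast at this
      show -(‖b o‖ ^ 2 / 2) ≤ _
      linarith
    · intro o
      rw [hf]
      have := hpm o 1 (Or.inl rfl)
      push_cast at this
      show _ ≤ ‖b o‖ ^ 2 / 2
      linarith
  · intro k
    exact (hK _ ((Fintype.equivFin (Prp ω)).symm k).2.1 ((Fintype.equivFin (Prp ω)).symm k).2.2).1
  · refine ⟨0, fun k => ?_⟩
    have h1 := (hK _ ((Fintype.equivFin (Prp ω)).symm k).2.1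
      ((Fintype.equivFin (Prp ω)).symm k).2.2).1
    rw [inner_zero_right]
    show 0 < ‖bS b ((Fintype.equivFin (Prp ω)).symm k).1‖ ^ 2 / 2
    have := norm_pos_iff.2 h1
    positivity
  · intro x hx c
    rw [← hbv] at hx
    obtain ⟨A, M, h⟩ := range_exists c
    rw [dist_eq_iff, ident b hb.sum x c A M h]
    have h1 : 0 ≤ ∑ m ∈ Finset.Ioc A (A + M),
        (‖bS b (lev c m)‖ ^ 2 / 2 - ⟪bS b (lev c m), x⟫_ℝ) :=
      Finset.sum_nonneg fun m _ => hterm x hx _
    have h2 : 0 ≤ ∑ j, ∑ k, (-⟪b j, b k⟫_ℝ) * (((c j : ℝ) - c k) ^ 2 - |(c j : ℝ) - c k|) :=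
      Finset.sum_nonneg fun j _ => Finset.sum_nonneg fun k _ => hpair c j k
    constructor
    · intro h3
      have h4 : ∑ m ∈ Finset.Ioc A (A + M),
        (‖bS b (lev c m)‖ ^ 2 / 2 - ⟪bS b (lev c m), x⟫_ℝ) = 0 := by linarith
      have h5 : ∑ j, ∑ k, (-⟪b j, b k⟫_ℝ) * (((c j : ℝ) - c k) ^ 2 - |(c j : ℝ) - c k|) = 0 := by
        linarith
      rw [Finset.sum_eq_zero_iff_of_nonneg fun m _ => hterm x hx _] at h4
      rw [Finset.sum_eq_zero_iff_of_nonneg
        fun j _ => Finset.sum_nonneg fun k _ => hpair c j k] at h5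
      constructor
      · intro o o' hadj
        have h6 := h5 o (Finset.mem_univ _)
        rw [Finset.sum_eq_zero_iff_of_nonneg fun k _ => hpair c o k] at h6
        have h7 := h6 o' (Finset.mem_univ _)
        unfold Adj at hadj
        rcases mul_eq_zero.1 h7 with h8 | h8
        · linarith
        · have h9 := (sq_eq (c o - c o')).1 (by
            push_cast
            exact h8)
          exact h9
      · intro m K hm hK1 hK2
        have hKl : K = lev c m := by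
          ext o
          rw [hm, mem_lev]
        obtain ⟨o1, ho1⟩ := hK1
        obtain ⟨o2, ho2⟩ : ∃ o2, o2 ∉ K := by
          by_contra hcon
          push Not at hcon
          exact hK2 (Finset.eq_univ_iff_forall.2 hcon)
        have h6 := (hm o1).1 ho1
        have h7 : ¬ m ≤ c o2 := fun h => ho2 ((hm o2).2 h)
        have h8 := h o1
        have h9 := h o2
        have h10 := h4 m (Finset.mem_Ioc.2 (by omega))
        unfold Tight
        rw [hKl]
        linarith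
    · rintro ⟨h3, h4⟩
      have h5 : ∑ m ∈ Finset.Ioc A (A + M),
        (‖bS b (lev c m)‖ ^ 2 / 2 - ⟪bS b (lev c m), x⟫_ℝ) = 0 := by
        refine Finset.sum_eq_zero fun m _ => ?_
        rcases (lev c m).eq_empty_or_nonempty with h6 | h6
        · rw [h6, hempty]
          simp
        · by_cases h7 : lev c m = Finset.univ
          · rw [h7, huniv]
            simp
          · have h8 := h4 m (lev c m) (fun o => mem_lev c m o) h6 h7
            unfold Tight at h8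
            linarith
      have h6 : ∑ j, ∑ k, (-⟪b j, b k⟫_ℝ) * (((c j : ℝ) - c k) ^ 2 - |(c j : ℝ) - c k|) = 0 := by
        refine Finset.sum_eq_zero fun j _ => Finset.sum_eq_zero fun k _ => ?_
        by_cases hjk : j = k
        · rw [hjk]
          simp
        · by_cases hadj : Adj b j k
          · have h7 := (sq_eq (c j - c k)).2 (h3 j k hadj)
            push_cast at h7
            rw [h7, mul_zero]
          · unfold Adj at hadj
            have h7 := hb.obt j k hjk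
            have h8 : ⟪b j, b k⟫_ℝ = 0 := le_antisymm h7 (not_lt.1 hadj)
            rw [h8]
            ring
      rw [h5, h6]
      ring

end Pool.Agent.Helper39.SPX.K1
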