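import Pool.Agent.Helper64.SPX.Spec3

/-!
# SPX, part K5: a cut vertex gives a product
-/

set_option autoImplicit false

open MeasureTheory Filter Topology Set
open scoped InnerProductSpace ENNReal

namespace Pool.Agent.Helper39.SPX.K5

open Pool.Agent.Helper64.SPX

variable {ι ω : Type} [Fintype ι] [Fintype ω]

open Classical in
theorem sum_split (o : ω) (K : Finset ω) (ho : o ∉ K) {M : Type} [AddCommMonoid M] (F : ω → M) :
    ∑ k, F k = F o + (∑ k ∈ K, F k + ∑ k ∈ (Finset.univ.erase o) \ K, F k) := by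
  rw [← Finset.add_sum_erase Finset.univ F (Finset.mem_univ o)]
  congr 1
  rw [add_comm]
  refine (Finset.sum_sdiff ?_).symm
  intro k hk
  rw [Finset.mem_erase]
  exact ⟨fun h => ho (h ▸ hk), Finset.mem_univ _⟩

theorem li (b : ω → E ι) (hb : Obt b) (o : ω) :
    LinearIndependent ℝ (fun k : {k // k ≠ o} => b k) := by
  classical
  apply linearIndependent_of_top_le_span_of_card_eq_finrank
  · refine hb.span.trans (Submodule.span_le.2 ?_)
    rintro _ ⟨k, rfl⟩
    by_cases hk : k = o
    · subst hk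
      have h1 : b k = -∑ j ∈ Finset.univ.erase k, b j := by
        have h2 := Finset.add_sum_erase Finset.univ b (Finset.mem_univ k)
        rw [hb.sum] at h2
        exact eq_neg_of_add_eq_zero_left h2
      rw [h1]
      apply Submodule.neg_mem
      apply Submodule.sum_mem
      intro j hj
      exact Submodule.subset_span ⟨⟨j, (Finset.mem_erase.1 hj).1⟩, rfl⟩
    · exact Submodule.subset_span ⟨⟨k, hk⟩, rfl⟩
  · rw [finrank_euclideanSpace, Fintype.card_subtype, Finset.filter_ne',
      Finset.card_erase_of_mem (Finset.mem_univ o), Finset.card_univ, hb.card]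
    omega

theorem finrank_U (b : ω → E ι) (hb : Obt b) (o : ω) (K : Finset ω) (ho : o ∉ K) :
    Module.finrank ℝ (Submodule.span ℝ (b '' K)) = K.card := by
  have h1 : LinearIndependent ℝ (fun k : K => b k) := by
    have h2 := (li b hb o).comp (fun k : K => (⟨k.1, fun h => ho (h ▸ k.2)⟩ : {k // k ≠ o}))
      (fun a a' h => by
        ext
        exact congrArg (fun z : {k // k ≠ o} => z.1) h)
    exact h2
  have h3 := finrank_span_eq_card h1
  have h4 : Set.range (fun k : K => b k) = b '' K := by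
    ext y
    constructor
    · rintro ⟨k, rfl⟩
      exact ⟨k.1, k.2, rfl⟩
    · rintro ⟨k, hk, rfl⟩
      exact ⟨⟨k, hk⟩, rfl⟩
  rw [h4] at h3
  rw [h3, Fintype.card_coe]

/-- one factor -/
theorem factor (b : ω → E ι) (hb : Obt b) (o : ω) (K : Finset ω) (ho : o ∉ K) :
    ∃ (φ : Submodule.span ℝ (b '' K) ≃ₗᵢ[ℝ] E (Fin K.card)) (b' : Option K → E (Fin K.card)),
      (∀ k : K, ((φ.symm (b' (some k)) : Submodule.span ℝ (b '' K)) : E ι) = b k) ∧
      (((φ.symm (b' none) : Submodule.span ℝ (b '' K)) : E ι) = -∑ k ∈ K, b k) ∧ Obt b' := by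
  classical
  have hfin := finrank_U b hb o K ho
  set U := Submodule.span ℝ (b '' K) with hU
  let φ : U ≃ₗᵢ[ℝ] E (Fin K.card) :=
    ((stdOrthonormalBasis ℝ U).reindex (finCongr hfin)).repr
  have hmem : ∀ k : K, b k ∈ U := fun k => Submodule.subset_span ⟨k.1, k.2, rfl⟩
  have hmem0 : -∑ k ∈ K, b k ∈ U :=
    Submodule.neg_mem _ (Submodule.sum_mem _ fun k hk => hmem ⟨k, hk⟩)
  let b' : Option K → E (Fin K.card) := fun r =>
    match r with
    | none => φ ⟨_, hmem0⟩
    | some k => φ ⟨_, hmem k⟩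
  have hs : ∀ k, b' (some k) = φ ⟨_, hmem k⟩ := fun k => rfl
  have hn : b' none = φ ⟨_, hmem0⟩ := rfl
  have hneg : ∀ k : K, ⟪b k, -∑ j ∈ K, b j⟫_ℝ ≤ 0 := by
    intro k
    have h1 := sum_split o K ho b
    rw [hb.sum] at h1
    have h2 : -∑ j ∈ K, b j = b o + ∑ j ∈ (Finset.univ.erase o) \ K, b j := by
      rw [neg_eq_iff_add_eq_zero]
      rw [h1]
      abel
    rw [h2, inner_add_right, inner_sum]
    have h3 : ⟪b k, b o⟫_ℝ ≤ 0 := hb.obt _ _ fun h => ho (h ▸ k.2)
    have h4 : ∑ j ∈ (Finset.univ.erase o) \ K, ⟪b k, b j⟫_ℝ ≤ 0 := by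
      refine Finset.sum_nonpos fun j hj => hb.obt _ _ ?_
      rintro rfl
      exact (Finset.mem_sdiff.1 hj).2 k.2
    linarith
  refine ⟨φ, b', ?_, ?_, ?_⟩
  · intro k
    rw [hs, LinearIsometryEquiv.symm_apply_apply]
  · rw [hn, LinearIsometryEquiv.symm_apply_apply]
  · constructor
    · rw [Fintype.sum_option]
      simp only [hs, hn]
      rw [← map_sum, ← map_add]
      have : (⟨-∑ k ∈ K, b k, hmem0⟩ : U) + ∑ k : K, (⟨b k, hmem k⟩ : U) = 0 := by
        ext1
        rw [Submodule.coe_add, Submodule.coe_sum, Submodule.coe_zero]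
        show -∑ k ∈ K, b k + ∑ k : K, b k = 0
        rw [Finset.sum_coe_sort K b]
        abel
      rw [this, map_zero]
    · rw [Fintype.card_option, Fintype.card_coe, Fintype.card_fin]
    · intro y _
      have h1 : ∀ (x : E ι) (hx : x ∈ U), φ ⟨x, hx⟩ ∈ Submodule.span ℝ (Set.range b') := by
        intro x hx
        induction hx using Submodule.span_induction with
        | mem x hx =>
          obtain ⟨k, hk, rfl⟩ := hx
          exact Submodule.subset_span ⟨some ⟨k, hk⟩, rfl⟩
        | zero =>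
          have : (⟨0, Submodule.zero_mem U⟩ : U) = 0 := rfl
          rw [this, map_zero]
          exact Submodule.zero_mem _
        | add x y hx hy h1 h2 =>
          have : (⟨x + y, Submodule.add_mem U hx hy⟩ : U) = ⟨x, hx⟩ + ⟨y, hy⟩ := rfl
          rw [this, map_add]
          exact Submodule.add_mem _ h1 h2
        | smul r x hx h1 =>
          have : (⟨r • x, Submodule.smul_mem U r hx⟩ : U) = r • ⟨x, hx⟩ := rfl
          rw [this, map_smul]
          exact Submodule.smul_mem _ r h1
      have h2 := h1 (φ.symm y).1 (φ.symm y).2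
      have h3 : (⟨((φ.symm y : U) : E ι), (φ.symm y).2⟩ : U) = φ.symm y := rfl
      rw [h3, LinearIsometryEquiv.apply_symm_apply] at h2
      exact h2
    · intro r r' hr
      rcases r with _ | k
      · rcases r' with _ | k'
        · exact absurd rfl hr
        · rw [hs, hn, LinearIsometryEquiv.inner_map_map, Submodule.coe_inner, real_inner_comm]
          exact hneg k'
      · rcases r' with _ | k'
        · rw [hs, hn, LinearIsometryEquiv.inner_map_map, Submodule.coe_inner]
          exact hneg k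
        · rw [hs, hs, LinearIsometryEquiv.inner_map_map, Submodule.coe_inner]
          apply hb.obt
          intro h
          apply hr
          rw [Subtype.ext h]

/-- coefficients of a factor -/
def co {ω : Type} (K : Finset ω) (o : ω) (c : ω → ℤ) : Option K → ℤ
  | none => c o
  | some k => c k

theorem sum_co (b : ω → E ι) (K : Finset ω) (o : ω) (c : ω → ℤ)
    (φ : Submodule.span ℝ (b '' K) ≃ₗᵢ[ℝ] E (Fin K.card)) (b' : Option K → E (Fin K.card))
    (h1 : ∀ k : K, ((φ.symm (b' (some k)) : Submodule.span ℝ (b '' K)) : E ι) = b k)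
    (h2 : ((φ.symm (b' none) : Submodule.span ℝ (b '' K)) : E ι) = -∑ k ∈ K, b k) :
    ((φ.symm (∑ r, ((co K o c r : ℤ) : ℝ) • b' r) : Submodule.span ℝ (b '' K)) : E ι) =
      ∑ k ∈ K, (c k : ℝ) • b k - (c o : ℝ) • ∑ k ∈ K, b k := by
  rw [Fintype.sum_option, map_add, map_smul, map_sum, Submodule.coe_add, Submodule.coe_smul,
    Submodule.coe_sum, h2]
  have h3 : ∀ k : K, ((φ.symm (((co K o c (some k) : ℤ) : ℝ) • b' (some k)) :
      Submodule.span ℝ (b '' K)) : E ι) = (c k : ℝ) • b k := by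
    intro k
    rw [map_smul, Submodule.coe_smul, h1]
    rfl
  simp only [h3]
  rw [Finset.sum_coe_sort K (fun k => (c k : ℝ) • b k)]
  show (c o : ℝ) • -∑ k ∈ K, b k + ∑ k ∈ K, (c k : ℝ) • b k = _
  rw [smul_neg]
  abel

theorem main : S_K5 := by
  classical
  intro ι ω _ _ b hb h2c
  unfold TwoConn at h2c
  push Not at h2c
  obtain ⟨o, K, hoK, hKne, ⟨j0, hj0, hj0K⟩, hno⟩ := h2c
  set R : Finset ω := (Finset.univ.erase o) \ K with hR
  have hoR : o ∉ R := by simp [hR]
  have hmemR : ∀ j, j ∈ R ↔ j ≠ o ∧ j ∉ K := by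
    intro j
    simp [hR]
  have hcard : Fintype.card ι = K.card + R.card := by
    have h1 := sum_split o K hoK (fun _ => 1)
    simp only [Finset.sum_const, smul_eq_mul, mul_one, Finset.card_univ] at h1
    rw [hb.card, ← hR] at h1
    omega
  have hRpos : 0 < R.card := Finset.card_pos.2 ⟨j0, (hmemR j0).2 ⟨hj0, hj0K⟩⟩
  have hKpos : 0 < K.card := Finset.card_pos.2 hKne
  -- orthogonality
  have horth : ∀ k ∈ K, ∀ j ∈ R, ⟪b k, b j⟫_ℝ = 0 := by
    intro k hk j hj
    have h1 := hb.obt k j fun h => ((hmemR j).1 hj).2 (h ▸ hk)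
    have h2 := hno k hk j ((hmemR j).1 hj).1 ((hmemR j).1 hj).2
    unfold Adj at h2
    linarith [not_lt.1 h2]
  obtain ⟨φ₁, b₁, h11, h12, hb₁⟩ := factor b hb o K hoK
  obtain ⟨φ₂, b₂, h21, h22, hb₂⟩ := factor b hb o R hoR
  have hort : Submodule.span ℝ (b '' K) ⟂ Submodule.span ℝ (b '' R) := by
    rw [Submodule.isOrtho_span]
    rintro _ ⟨k, hk, rfl⟩ _ ⟨j, hj, rfl⟩
    exact horth k hk j hj
  have hpyth : ∀ (a : Submodule.span ℝ (b '' K)) (c : Submodule.span ℝ (b '' R)), ‖(a : E ι) + (c : E ι)‖ ^ 2 = ‖a‖ ^ 2 + ‖c‖ ^ 2 := by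
    intro a c
    have h1 : ⟪(a : E ι), (c : E ι)⟫_ℝ = 0 :=
      Submodule.isOrtho_iff_inner_eq.1 hort _ a.2 _ c.2
    rw [norm_add_sq_real, h1]
    simp
  -- the map
  let T₀ : E (Fin K.card ⊕ Fin R.card) →ₗ[ℝ] E ι :=
    { toFun := fun z => ((φ₁.symm (fst z) : Submodule.span ℝ (b '' K)) : E ι) + ((φ₂.symm (snd z) : Submodule.span ℝ (b '' R)) : E ι)
      map_add' := fun z w => by
        have e1 : fst (z + w) = fst z + fst w := rfl
        have e2 : snd (z + w) = snd z + snd w := rfl
        rw [e1, e2, map_add, map_add, Submodule.coe_add, Submodule.coe_add]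
        abel
      map_smul' := fun r z => by
        have e1 : fst (r • z) = r • fst z := rfl
        have e2 : snd (r • z) = r • snd z := rfl
        rw [e1, e2, map_smul, map_smul, Submodule.coe_smul, Submodule.coe_smul,
          RingHom.id_apply, smul_add] }
  have hT₀ : ∀ z, T₀ z = ((φ₁.symm (fst z) : Submodule.span ℝ (b '' K)) : E ι) + ((φ₂.symm (snd z) : Submodule.span ℝ (b '' R)) : E ι) :=
    fun z => rfl
  have hinj : Function.Injective T₀ := by
    rw [← LinearMap.ker_eq_bot, LinearMap.ker_eq_bot']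
    intro z hz
    have h1 := hpyth (φ₁.symm (fst z)) (φ₂.symm (snd z))
    rw [← hT₀, hz, LinearIsometryEquiv.norm_map, LinearIsometryEquiv.norm_map, norm_zero] at h1
    have h2 : ‖fst z‖ = 0 := by
      have := sq_nonneg ‖snd z‖
      have := sq_nonneg ‖fst z‖
      have h3 : ‖fst z‖ ^ 2 = 0 := by nlinarith
      exact pow_eq_zero_iff (two_ne_zero) |>.1 h3
    have h3 : ‖snd z‖ = 0 := by
      have := sq_nonneg ‖snd z‖
      have := sq_nonneg ‖fst z‖
      have h3 : ‖snd z‖ ^ 2 = 0 := by nlinarith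
      exact pow_eq_zero_iff (two_ne_zero) |>.1 h3
    ext i
    rcases i with i | i
    · have := congrArg (fun v : E (Fin K.card) => v i) (norm_eq_zero.1 h2)
      exact this
    · have := congrArg (fun v : E (Fin R.card) => v i) (norm_eq_zero.1 h3)
      exact this
  have hdim : Module.finrank ℝ (E (Fin K.card ⊕ Fin R.card)) = Module.finrank ℝ (E ι) := by
    rw [finrank_euclideanSpace, finrank_euclideanSpace, Fintype.card_sum, Fintype.card_fin,
      Fintype.card_fin, hcard]
  let T := LinearEquiv.ofInjectiveOfFinrankEq T₀ hinj hdim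
  have hT : ∀ z, T z = T₀ z := fun z => rfl
  -- lattice vectors
  have hl : ∀ c : ω → ℤ, ∑ k, (c k : ℝ) • b k =
      ((φ₁.symm (∑ r, ((co K o c r : ℤ) : ℝ) • b₁ r) : Submodule.span ℝ (b '' K)) : E ι) +
      ((φ₂.symm (∑ r, ((co R o c r : ℤ) : ℝ) • b₂ r) : Submodule.span ℝ (b '' R)) : E ι) := by
    intro c
    have e1 := sum_co b K o c φ₁ b₁ h11 h12
    have e2 := sum_co b R o c φ₂ b₂ h21 h22
    rw [e1, e2, sum_split o K hoK (fun k => (c k : ℝ) • b k)]
    have e3 : b o = -(∑ k ∈ K, b k + ∑ k ∈ R, b k) := by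
      have h1 := sum_split o K hoK b
      rw [hb.sum] at h1
      exact eq_neg_of_add_eq_zero_left h1.symm
    rw [← hR]
    have e4 : (c o : ℝ) • b o = -((c o : ℝ) • ∑ k ∈ K, b k) - (c o : ℝ) • ∑ k ∈ R, b k := by
      rw [e3, smul_neg, smul_add]
      abel
    rw [e4]
    abel
  have hnorm : ∀ (z : E (Fin K.card ⊕ Fin R.card)) (c : ω → ℤ),
      ‖T z - ∑ k, (c k : ℝ) • b k‖ ^ 2 =
        ‖fst z - ∑ r, ((co K o c r : ℤ) : ℝ) • b₁ r‖ ^ 2 +
        ‖snd z - ∑ r, ((co R o c r : ℤ) : ℝ) • b₂ r‖ ^ 2 := by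
    intro z c
    rw [hl c, hT, hT₀]
    have e1 : ((φ₁.symm (fst z) : Submodule.span ℝ (b '' K)) : E ι) + ((φ₂.symm (snd z) : Submodule.span ℝ (b '' R)) : E ι) -
        (((φ₁.symm (∑ r, ((co K o c r : ℤ) : ℝ) • b₁ r) : Submodule.span ℝ (b '' K)) : E ι) +
        ((φ₂.symm (∑ r, ((co R o c r : ℤ) : ℝ) • b₂ r) : Submodule.span ℝ (b '' R)) : E ι)) =
        ((φ₁.symm (fst z - ∑ r, ((co K o c r : ℤ) : ℝ) • b₁ r) : Submodule.span ℝ (b '' K)) : E ι) +
        ((φ₂.symm (snd z - ∑ r, ((co R o c r : ℤ) : ℝ) • b₂ r) : Submodule.span ℝ (b '' R)) : E ι) := by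
      rw [map_sub, map_sub, Submodule.coe_sub, Submodule.coe_sub]
      abel
    rw [e1, hpyth, LinearIsometryEquiv.norm_map, LinearIsometryEquiv.norm_map]
  have hnorm0 : ∀ z : E (Fin K.card ⊕ Fin R.card), ‖T z‖ ^ 2 = ‖fst z‖ ^ 2 + ‖snd z‖ ^ 2 := by
    intro z
    rw [hT, hT₀, hpyth, LinearIsometryEquiv.norm_map, LinearIsometryEquiv.norm_map]
  refine ⟨Fin K.card, Fin R.card, Option K, Option R, inferInstance, inferInstance,
    inferInstance, inferInstance, b₁, b₂, T, hb₁, hb₂, ?_, ?_, ?_⟩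
  · rw [Fintype.card_fin]
    omega
  · rw [Fintype.card_fin]
    omega
  · ext x
    constructor
    · rintro ⟨z, ⟨hz1, hz2⟩, rfl⟩ c
      have h1 := hz1 (co K o c)
      have h2 := hz2 (co R o c)
      apply le_of_sq_le_sq _ (norm_nonneg _)
      rw [hnorm, hnorm0]
      have h3 := pow_le_pow_left₀ (norm_nonneg _) h1 2
      have h4 := pow_le_pow_left₀ (norm_nonneg _) h2 2
      linarith
    · intro hx
      obtain ⟨z, rfl⟩ := T.surjective x
      refine ⟨z, ⟨?_, ?_⟩, rfl⟩
      · intro c₁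
        let c : ω → ℤ := fun k => if hk : k ∈ K then c₁ (some ⟨k, hk⟩) - c₁ none else 0
        have hc0 : c o = 0 := by simp only [c]; rw [dif_neg hoK]
        have hcR : ∀ k ∈ R, c k = 0 := by
          intro k hk
          simp only [c]
          rw [dif_neg ((hmemR k).1 hk).2]
        have h1 := pow_le_pow_left₀ (norm_nonneg _) (hx c) 2
        rw [hnorm, hnorm0] at h1
        have e1 : ∑ r, ((co R o c r : ℤ) : ℝ) • b₂ r = 0 := by
          refine Finset.sum_eq_zero fun r _ => ?_
          rcases r with _ | k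
          · show ((c o : ℤ) : ℝ) • _ = 0
            rw [hc0]
            simp
          · show ((c k : ℤ) : ℝ) • _ = 0
            rw [hcR k k.2]
            simp
        have e2 : ∑ r, ((co K o c r : ℤ) : ℝ) • b₁ r = ∑ r, (c₁ r : ℝ) • b₁ r := by
          have e3 : ∀ r, ((co K o c r : ℤ) : ℝ) = (c₁ r : ℝ) - (c₁ none : ℝ) := by
            intro r
            rcases r with _ | k
            · show ((c o : ℤ) : ℝ) = _
              rw [hc0]
              simp
            · show ((c k : ℤ) : ℝ) = _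
              simp only [c]
              rw [dif_pos k.2]
              push_cast
              rfl
          simp only [e3, sub_smul]
          rw [Finset.sum_sub_distrib, ← Finset.smul_sum, hb₁.sum, smul_zero, sub_zero]
        rw [e1, e2, sub_zero] at h1
        apply le_of_sq_le_sq _ (norm_nonneg _)
        linarith
      · intro c₂
        let c : ω → ℤ := fun k => if hk : k ∈ R then c₂ (some ⟨k, hk⟩) - c₂ none else 0
        have hc0 : c o = 0 := by simp only [c]; rw [dif_neg hoR]
        have hcK : ∀ k ∈ K, c k = 0 := by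
          intro k hk
          simp only [c]
          rw [dif_neg fun h => ((hmemR k).1 h).2 hk]
        have h1 := pow_le_pow_left₀ (norm_nonneg _) (hx c) 2
        rw [hnorm, hnorm0] at h1
        have e1 : ∑ r, ((co K o c r : ℤ) : ℝ) • b₁ r = 0 := by
          refine Finset.sum_eq_zero fun r _ => ?_
          rcases r with _ | k
          · show ((c o : ℤ) : ℝ) • _ = 0
            rw [hc0]
            simp
          · show ((c k : ℤ) : ℝ) • _ = 0
            rw [hcK k k.2]
            simp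
        have e2 : ∑ r, ((co R o c r : ℤ) : ℝ) • b₂ r = ∑ r, (c₂ r : ℝ) • b₂ r := by
          have e3 : ∀ r, ((co R o c r : ℤ) : ℝ) = (c₂ r : ℝ) - (c₂ none : ℝ) := by
            intro r
            rcases r with _ | k
            · show ((c o : ℤ) : ℝ) = _
              rw [hc0]
              simp
            · show ((c k : ℤ) : ℝ) = _
              simp only [c]
              rw [dif_pos k.2]
              push_cast
              rfl
          simp only [e3, sub_smul]
          rw [Finset.sum_sub_distrib, ← Finset.smul_sum, hb₂.sum, smul_zero, sub_zero]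
        rw [e1, e2, sub_zero] at h1
        apply le_of_sq_le_sq _ (norm_nonneg _)
        linarith

end Pool.Agent.Helper39.SPX.K5
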